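import Pool.Agent.P8H67.TU.Stm

set_option autoImplicit false

/-!
# Project TU (helper67), package GIND: induction over the charts, with a local hypothesis on the homology

Adaptation of `Pool.Agent.P8H54.TD.Chart` and `Pool.Agent.P8H54.TD.Gind` (helper54).
-/

open Set Filter Topology

namespace Pool.Agent.P8H29.TU

open Pool.Agent.P8H67.TD
open Pool.Agent.N520.SV (Sx Chain face bdry norm1 BCob)

lemma local_chart {Y G : Type} [TopologicalSpace Y] [T2Space Y] [LocallyCompactSpace Y]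
    [Group G] [MulAction G Y] [ContinuousConstSMul G Y]
    (hp : ∀ K : Set Y, IsCompact K → {g : G | ∃ y ∈ K, g • y ∈ K}.Finite) (y : Y) (W0 : Set Y)
    (hW0 : IsOpen W0) (hyW0 : y ∈ W0) :
    ∃ (F : Subgroup G) (B : Set Y), Finite F ∧ IsOpen B ∧ y ∈ B ∧ (∀ g ∈ F, ∀ z ∈ B, g • z ∈ B) ∧
      (∀ g ∉ F, ∀ z ∈ B, g • z ∉ B) ∧ B ⊆ W0 := by
  obtain ⟨K, hK, hKy⟩ := exists_compact_mem_nhds y
  have hyK : y ∈ K := mem_of_mem_nhds hKy
  set S : Set G := {g : G | ∃ z ∈ K, g • z ∈ K} with hS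
  have hSf : S.Finite := hp K hK
  set F : Subgroup G := MulAction.stabilizer G y with hF
  have hFS : (F : Set G) ⊆ S := by
    intro g hg
    have h1 : g • y = y := hg
    exact ⟨y, hyK, by rw [h1]; exact hyK⟩
  have hFf : (F : Set G).Finite := hSf.subset hFS
  have hFfin : Finite F := hFf.to_subtype
  have hW : ∀ g : G, ∃ W : Set Y, IsOpen W ∧ y ∈ W ∧ (g • y ≠ y → ∀ z ∈ W, g • z ∉ W) := by
    intro g
    by_cases h : g • y = y
    · exact ⟨univ, isOpen_univ, mem_univ _, fun h' => absurd h h'⟩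
    · obtain ⟨U, V, hU, hV, hyU, hyV, hUV⟩ := t2_separation (Ne.symm h)
      refine ⟨U ∩ (fun z => g • z) ⁻¹' V, hU.inter (hV.preimage (continuous_const_smul g)), ⟨hyU, hyV⟩,
        fun _ z hz hz2 => ?_⟩
      exact Set.disjoint_left.1 hUV hz2.1 hz.2
  choose W hWo hWy hWd using hW
  set B0 : Set Y := (interior K ∩ W0) ∩ ⋂ g ∈ S, W g with hB0
  have hB0o : IsOpen B0 := (isOpen_interior.inter hW0).inter (hSf.isOpen_biInter fun g _ => hWo g)
  have hB0y : y ∈ B0 := by
    refine ⟨⟨mem_interior_iff_mem_nhds.2 hKy, hyW0⟩, ?_⟩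
    simp only [mem_iInter]
    exact fun g _ => hWy g
  set B : Set Y := ⋂ f ∈ (F : Set G), (fun z => f • z) ⁻¹' B0 with hB
  have hmem : ∀ z, z ∈ B ↔ ∀ f ∈ F, f • z ∈ B0 := by
    intro z
    rw [hB]
    simp only [mem_iInter, mem_preimage]
    rfl
  have hB1 : ∀ z ∈ B, z ∈ B0 := by
    intro z hz
    have := (hmem z).1 hz 1 F.one_mem
    rwa [one_smul] at this
  refine ⟨F, B, hFfin, ?_, ?_, ?_, ?_, ?_⟩
  · exact hFf.isOpen_biInter fun f _ => hB0o.preimage (continuous_const_smul f)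
  · rw [hmem]
    intro f hf
    have h1 : f • y = y := hf
    rw [h1]
    exact hB0y
  · intro g hg z hz
    rw [hmem] at hz ⊢
    intro f hf
    rw [← mul_smul]
    exact hz (f * g) (F.mul_mem hf hg)
  · intro g hg z hz hgz
    have h1 := hB1 z hz
    have h2 := hB1 _ hgz
    have h3 : g ∈ S := ⟨z, interior_subset h1.1.1, interior_subset h2.1.1⟩
    have h4 : g • y ≠ y := fun h => hg h
    have h5 : z ∈ W g := by
      have := h1.2
      simp only [mem_iInter] at this
      exact this g h3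
    have h6 : g • z ∈ W g := by
      have := h2.2
      simp only [mem_iInter] at this
      exact this g h3
    exact hWd g h4 z h5 h6
  · exact fun z hz => (hB1 z hz).1.2

lemma orb_open {Y G : Type} [TopologicalSpace Y] [Group G] [MulAction G Y] [ContinuousConstSMul G Y] {W : Set Y}
    (hW : IsOpen W) : IsOpen (orb G W) := by
  have h : orb G W = ⋃ g : G, (fun y => g • y) ⁻¹' W := by
    ext y
    rw [mem_iUnion]
    rfl
  rw [h]
  exact isOpen_iUnion fun g => hW.preimage (continuous_const_smul g)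

lemma orb_inv {Y G : Type} [Group G] [MulAction G Y] (W : Set Y) : GInv G (orb G W) := by
  intro g y hy
  obtain ⟨h, hh⟩ := hy
  refine ⟨h * g⁻¹, ?_⟩
  rw [mul_smul, inv_smul_smul]
  exact hh

lemma orb_inter {Y G : Type} [Group G] [MulAction G Y] (B A : Set Y) (hA : GInv G A) :
    orb G (B ∩ A) = A ∩ orb G B := by
  ext y
  constructor
  · rintro ⟨g, hg1, hg2⟩
    refine ⟨?_, g, hg1⟩
    have := hA g⁻¹ _ hg2
    rwa [inv_smul_smul] at this
  · rintro ⟨hy, g, hg⟩
    exact ⟨g, hg, hA g y hy⟩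

lemma gac_empty {Y G : Type} [TopologicalSpace Y] [Group G] [MulAction G Y] [ContinuousConstSMul G Y] (j : ℕ) :
    GAc G j (∅ : Set Y) := by
  intro c hc _
  have h0 : c = 0 := by
    have h1 : (c : Chain (j + 1) Y) ∈ Finsupp.supported ℝ ℝ {σ : C(Sx (j + 1), Y) | range σ ⊆ (∅ : Set Y)} := hc
    rw [Finsupp.mem_supported] at h1
    have h2 : c.support = ∅ := by
      rw [Finset.eq_empty_iff_forall_notMem]
      intro σ hσ
      have h3 : range σ ⊆ (∅ : Set Y) := h1 hσ
      exact h3 (mem_range_self (vtx 0))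
    exact Finsupp.support_eq_empty.1 h2
  refine ⟨0, Submodule.zero_mem _, ?_⟩
  rw [h0, map_zero, sub_zero]
  exact Submodule.zero_mem _

theorem gind : Pool.Agent.P8H67.TU.S_GIND := by
  intro hSUB hGMV hGLOC Y G _ _ _ _ _ _ hp ⟨K, hK, hcovK⟩ m hloc j hj
  choose B1 hB1o hB1y hRA using hloc
  choose F0 B0 hFf0 hBo0 hBy0 hBi0 hBd0 hBs0 using
    fun y : Y => local_chart (G := G) hp y (B1 y) (hB1o y) (hB1y y)
  obtain ⟨t, -, ht⟩ := hK.elim_nhds_subcover B0 fun x _ => (hBo0 x).mem_nhds (hBy0 x)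
  set N := t.card with hN
  let q : Fin N → Y := fun i => (t.equivFin.symm i : Y)
  let F : Fin N → Subgroup G := fun i => F0 (q i)
  let B : Fin N → Set Y := fun i => B0 (q i)
  have hBo : ∀ i, IsOpen (B i) := fun i => hBo0 _
  have hBi : ∀ i, ∀ g ∈ F i, ∀ y ∈ B i, g • y ∈ B i := fun i => hBi0 _
  have hBd : ∀ i, ∀ g ∉ F i, ∀ y ∈ B i, g • y ∉ B i := fun i => hBd0 _
  have hBs : ∀ i, B i ⊆ B1 (q i) := fun i => hBs0 _
  have hcov : ∀ y : Y, ∃ i, y ∈ orb G (B i) := by
    intro y
    obtain ⟨g, hg⟩ := hcovK y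
    have h1 := ht hg
    simp only [mem_iUnion] at h1
    obtain ⟨x, hx, hxB⟩ := h1
    refine ⟨t.equivFin ⟨x, hx⟩, g, ?_⟩
    simp only [B, q, Equiv.symm_apply_apply]
    exact hxB
  let A : ℕ → Set Y := fun n => {y | ∃ i : Fin N, i.val < n ∧ y ∈ orb G (B i)}
  have hAo : ∀ n, IsOpen (A n) := by
    intro n
    have h : A n = ⋃ i : Fin N, ⋃ _ : i.val < n, orb G (B i) := by
      ext y
      simp only [A, Set.mem_ofPred_eq, mem_iUnion, exists_prop]
    rw [h]
    exact isOpen_iUnion fun i => isOpen_iUnion fun _ => orb_open (hBo i)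
  have hAi : ∀ n, GInv G (A n) := by
    intro n g y hy
    obtain ⟨i, hi, hy⟩ := hy
    exact ⟨i, hi, orb_inv (B i) g y hy⟩
  have key : ∀ n, n ≤ N → GAc G (j + 1) (A n) := by
    intro n
    induction n with
    | zero =>
      intro _
      have h : A 0 = ∅ := by
        rw [Set.eq_empty_iff_forall_notMem]
        rintro y ⟨i, hi, -⟩
        exact Nat.not_lt_zero _ hi
      rw [h]
      exact gac_empty _
    | succ n ih =>
      intro hn
      have ih' := ih (by omega)
      let i : Fin N := ⟨n, hn⟩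
      have hA1 : A (n + 1) = A n ∪ orb G (B i) := by
        ext y
        constructor
        · rintro ⟨l, hl, hy⟩
          rcases Nat.lt_or_ge l.val n with h | h
          · exact Or.inl ⟨l, h, hy⟩
          · right
            have hli : l = i := Fin.ext (by show l.val = n; omega)
            rw [← hli]
            exact hy
        · rintro (⟨l, hl, hy⟩ | hy)
          · exact ⟨l, by omega, hy⟩
          · exact ⟨i, Nat.lt_succ_self n, hy⟩
      rw [hA1]
      have : Finite (F i) := hFf0 _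
      have g1 : GAc G (j + 1) (orb G (B i)) :=
        hGLOC Y G (F i) (B i) (B i) (hBd i) (hBo i) subset_rfl (hBi i) (j + 1)
          (hRA (q i) _ (hBo i) (hBs i) (j + 1) (by omega))
      have g2 : GAc G j (orb G (B i ∩ A n)) :=
        hGLOC Y G (F i) (B i) (B i ∩ A n) (hBd i) ((hBo i).inter (hAo n)) inter_subset_left
          (fun g hg y hy => ⟨hBi i g hg y hy.1, hAi n g y hy.2⟩) j
          (hRA (q i) _ ((hBo i).inter (hAo n)) (inter_subset_left.trans (hBs i)) j hj)
      rw [orb_inter (B i) (A n) (hAi n)] at g2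
      exact hGMV hSUB Y G (A n) (orb G (B i)) (hAo n) (orb_open (hBo i)) (hAi n) (orb_inv _) j ih' g1 g2
  have hun : A N = univ := by
    rw [Set.eq_univ_iff_forall]
    intro y
    obtain ⟨i, hi⟩ := hcov y
    exact ⟨i, i.isLt, hi⟩
  rw [← hun]
  exact key N le_rfl

end Pool.Agent.P8H29.TU
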